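import Pool.Agent.Helper43.FV.Eqv
import Pool.Agent.Helper43.FV.CORE2
import Pool.Agent.Helper43.FV.BS2
import Pool.Agent.Helper43.FV.YSET
import Pool.Agent.Helper43.FV.VI
import Pool.Agent.Helper43.FV.ELLW
import Pool.Agent.Helper7.FV.SUMM
import Pool.Agent.Helper11.FV.REGOPEN
import Pool.Agent.Helper16.FV.GK
import Pool.Agent.Helper16.FV.PLU
import Pool.Agent.Helper17.FV.GM
import Pool.Agent.Helper19.FV.PROJ
import Pool.Agent.Helper20.FV.GENREG
import Pool.Agent.Helper23.FV.D1
import Pool.Agent.Helper26.FV.E
import Pool.Agent.Helper27.FV.SLICE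
import Pool.Agent.Helper34.FV.ELLI
import Pool.Agent.Helper41.FV.GACT
import Pool.Agent.Helper41.FV.GMAPC
import Pool.Agent.Helper44.FV.FINU
import Pool.Agent.Helper45.FV.LINE
import Pool.Agent.Helper48.FV.ELLT
import Pool.Agent.Helper51.FV.DELTA
import Pool.Agent.Helper52.FV.ELLD
import Pool.Agent.Helper53.FV.CLS
import Pool.Agent.Helper56.FV.ELLF
import Pool.Agent.Helper58.FV.ELLQ
import Pool.Agent.Helper60.FV.ZER
import Pool.Agent.Helper77.FV.U
import Pool.Agent.Helper78.FV.EXT
import Pool.Agent.Helper78.FV.RR
import Pool.Agent.Helper78.FV.WEIL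
import Pool.Agent.Helper79.FV.CXA
import Pool.Agent.Helper79.FV.GCX
import Pool.Agent.Helper80.FV.D3
import Pool.Agent.Helper87.FV.GEV
import Pool.Agent.Helper87.FV.RIE
import Pool.Agent.Helper90.FV.DEG
import Pool.Agent.Helper90.FV.ELL
import Pool.Agent.Helper90.FV.HT1
import Pool.Agent.Helper90.FV.RBP
import Pool.Agent.Helper94.FV.FGF
import Pool.Agent.Helper94.FV.KB2
import Pool.Agent.Helper94.FV.RES
import Pool.Agent.Helper95.FV.THK
import Pool.Agent.Helper99.FV.GLIFT
import Pool.Agent.Helper99.FV.GMAP
import Pool.Agent.Helper77.RS.BEZ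
import Pool.Agent.Helper77.RS.BS
import Pool.Agent.Helper79.RS.FC
import Pool.Agent.Helper91.RS.SQB
import Pool.Agent.Helper37.RS.LK

/-!
# MP_2461de_ag, Q1, full answer

Every normal variety of complexity one under a complex reductive group (connected or not) with a
real group structure has only finitely many equivalence classes of equivariant real structures.

`ST_CORE2` (file `Pool/Agent/Helper43/FV/Spec.lean`) is the algebraic form of the theorem:
finiteness for the models (systems of local rings) of a field `K` with a rational action of `G`.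
Let `A` be the group of equivariant automorphisms and `F` the field of rational invariants of the
identity component of `G`.
If `F = ℂ`, a finite index subgroup of `A` acts projectively on a finite dimensional subspace
generating `K` (this case uses no hypothesis on the complexity). If not, `F` is the function field
of a curve, it contains the rational invariants of a Borel subgroup, and a finite index subgroup
of `A` multiplies suitable generators of `K` by elements of `F`. If some place of `F` is not under
a prime divisor of `X` or `F` has an invariant divisor class of positive degree, see `ST_U`;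
otherwise `F` is elliptic and every place is under a prime divisor of `X`, see `ST_E`.
All cases end with a lemma on extensions and the finiteness theorem of Borel and Serre.
-/

namespace Pool.Agent.Results.MP_2461de_ag.AllVarieties

open Pool.Agent.Helper43.RS (IsReductiveGroup IsRealGroupStructure)
open Pool.Agent.Helper43.FV
open Pool.Agent.Helper87.FV Pool.Agent.Helper90.FV

theorem core : ST_CORE2 := by
  have hSUMM : ST_SUMM := st_SUMM
  have hSLICE : ST_SLICE := st_SLICE hSUMM
  have hGLIFT : ST_GLIFT := st_GLIFT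
  have hREG : ST_REGOPEN := st_REGOPEN hSLICE hGLIFT
  have hTHK : ST_THK := st_THK hREG
  have hGENREG : ST_GENREG := st_GENREG hREG
  have hBS : Pool.Agent.Helper43.RS.ST_BS :=
    Pool.Agent.Helper43.RS.st_BS (Pool.Agent.Helper43.RS.st_FC Pool.Agent.Helper43.RS.st_BEZ)
      Pool.Agent.Helper43.RS.st_SQA Pool.Agent.Helper43.RS.st_SQB
  have hBS2 : ST_BS2 := st_BS2 hBS
  have hPROJ : ST_PROJ := st_PROJ hTHK hBS2
  have hEXT : ST_EXT := st_EXT
  have hFINU : ST_FINU := st_FINU hPROJ hEXT
  have hLINE : ST_LINE := st_LINE st_PLU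
  have hVI : ST_VI := st_VI hLINE
  have hKB2 : ST_KB2 := st_KB2
  have hYSET : ST_YSET := st_YSET Pool.Agent.Helper43.RS.st_LK hLINE
  have hFGF : ST_FGF := st_FGF
  have hRES : ST_RES := st_RES
  have hDEG : ST_DEG := st_DEG st_ZER
  have hRIE : ST_RIE := st_RIE hDEG hRES
  have hRBP : ST_RBP := st_RBP hRIE hDEG
  have hWEIL : ST_WEIL := st_WEIL hRIE hRES hDEG
  have hRR : ST_RR := st_RR hWEIL hRIE hDEG
  have hCLS : ST_CLS := st_CLS hRR hDEG
  have hELLW : ST_ELLW := st_ELLW hDEG hRES
  have hELL : ST_ELL := st_ELL hELLW st_ELLT (st_ELLI hDEG hRES) st_ELLD st_ELLF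
  have hD3 : ST_D3 := st_D3 st_HT1 hGLIFT hDEG hRES
  have hDELTA : ST_DELTA := st_DELTA st_D1
  have hU : ST_U := st_U hFINU hDELTA hD3 hRIE hRBP
  have hELLQ : ST_ELLQ := st_ELLQ hGENREG hGLIFT hDELTA hRIE hDEG
  have hE : ST_E := st_E hELL hELLQ hPROJ hEXT hDELTA hDEG
  exact st_CORE2 hVI hFINU hKB2 hFGF hYSET hCLS hU hE

/-- Equivalence of equivariant real structures on the variety `X`. -/
def rsSetoid {X : Type} (𝒜 : Atlas X) (hX : IsNormalVariety 𝒜) {m : ℕ}
    {G : Subgroup (GL (Fin m) ℂ)} [MulAction G X] (σ : G ≃* G) : Setoid (RealStr 𝒜 σ) where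
  r μ ν := μ.Equiv ν
  iseqv := eqv_equiv st_GK (st_GM st_GEV) (st_GMAP st_GEV) (st_GMAPC st_GEV (st_GM st_GEV)) hX σ

/-- Let `G` be a complex reductive group (a Zariski closed subgroup of `GL m ℂ` whose identity
component is linearly reductive) with a real group structure `σ`, and let `X` be a normal
variety (given by a finite affine atlas) with a regular action of `G` of complexity one. Then
the `(G, σ)`-equivariant real structures on `X` form finitely many equivalence classes. -/
theorem result {m : ℕ} (G : Subgroup (GL (Fin m) ℂ)) (hG : IsReductiveGroup G)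
    (σ : G ≃* G) (hσ : IsRealGroupStructure σ) (X : Type) [MulAction G X] (𝒜 : Atlas X)
    (hX : IsNormalVariety 𝒜) (hact : IsRegAction 𝒜 G) (hc : IsComplexityOne 𝒜 G) :
    Finite (Quotient (rsSetoid 𝒜 hX σ)) := by
  obtain ⟨T, hT, h⟩ := fin_main core st_GK st_GEV (st_GM st_GEV) (st_GMAP st_GEV)
    (st_GMAPC st_GEV (st_GM st_GEV)) (st_GACT st_GEV (st_GMAP st_GEV))
    (st_GCX st_CXA st_GEV) hG hσ 𝒜 hX hact hc
  have hT' : Finite T := hT
  refine Finite.of_surjective (fun ν : T => (Quotient.mk (rsSetoid 𝒜 hX σ) ν.1)) ?_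
  intro q
  induction q using Quotient.inductionOn with
  | h μ =>
    obtain ⟨ν, hν, h1⟩ := h μ
    exact ⟨⟨ν, hν⟩, Quotient.sound h1⟩

end Pool.Agent.Results.MP_2461de_ag.AllVarieties
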